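import Pool.Agent.H.MP_2f53c7.A

set_option autoImplicit false

open Set Filter Topology TopologicalSpace

namespace Pool.Agent.H.MP_a29c66
open Pool.Agent.H.MP_2f53c7

lemma t35 {X : Type} [TopologicalSpace X] [T0Space X]
    (h : ∀ x U, IsOpen U → x ∈ U → ∃ V : Set X, IsClopen V ∧ x ∈ V ∧ V ⊆ U) : T35Space X := by
  classical
  have : CompletelyRegularSpace X := ⟨fun x K hK hx => by
    obtain ⟨V, v1, v2, v3⟩ := h x _ hK.isOpen_compl hx
    exact ⟨fun y => if y ∈ V then 0 else 1, continuous_if (by simp [v1.frontier_eq])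
      continuousOn_const continuousOn_const, if_pos v2, fun y hy => if_neg fun k => v3 k hy⟩⟩
  exact {}

/-- the sequential fan -/
def Fan : Type := Option (ℕ × ℕ)

instance : TopologicalSpace Fan where
  IsOpen U := none ∈ U → ∀ j, ∀ᶠ k in atTop, some (j, k) ∈ U
  isOpen_univ := fun _ _ => Eventually.of_forall fun _ => trivial
  isOpen_inter := fun _ _ hs ht h j => (hs h.1 j).and (ht h.2 j)
  isOpen_sUnion := fun _ hs ⟨t, h1, h2⟩ j => (hs t h1 h2 j).mono fun _ h => ⟨t, h1, h⟩

lemma fan_closed {D : Set Fan} (h : ∀ j, {k | some (j, k) ∈ D}.Finite) : IsClosed D :=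
  ⟨fun _ j => Nat.cofinite_eq_atTop ▸ (h j).compl_mem_cofinite⟩

lemma fan_open {U : Set Fan} (h : none ∉ U) : IsOpen U := fun k => (h k).elim

instance : T1Space Fan := ⟨fun x => fan_closed fun _ => (finite_singleton x).preimage
  fun _ _ _ _ h => by cases h; rfl⟩

instance : T35Space Fan := t35 fun x U u h => by
  cases x
  exacts [⟨U, ⟨⟨fan_open (not_not.2 h)⟩, u⟩, h, subset_rfl⟩,
    ⟨_, ⟨isClosed_singleton, fan_open fun h => by cases h⟩, rfl, singleton_subset_iff.2 h⟩]

lemma spine (j : ℕ) : Tendsto (β := Fan) (fun k => some (j, k)) atTop (𝓝 none) :=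
  tendsto_nhds.2 fun _ u h => u h j

instance : SequentialSpace Fan := ⟨fun S hS => ⟨fun h j => by
  by_contra k
  obtain ⟨φ, h1, h2⟩ := extraction_of_frequently_atTop (not_eventually.1 k)
  exact h (hS (fun n => not_not.1 (h2 n)) ((spine j).comp h1.tendsto_atTop))⟩⟩

lemma fan_cpt {C : Set Fan} (hC : IsCompact C) : {j | ∃ k, some (j, k) ∈ C}.Finite := by
  choose! k hk using fun j (h : ∃ k, some (j, k) ∈ C) => h
  refine .of_finite_image (f := fun j => (some (j, k j) : Fan)) ((hC.of_isClosed_subset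
    (fan_closed fun j => (finite_singleton (k j)).subset ?_) ?_).finite
    (isDiscrete_iff_forall_mem_exists_isOpen.2 ?_)) fun _ _ _ _ h => by cases h; rfl
  · rintro _ ⟨i, -, h⟩
    cases h; rfl
  · rintro _ ⟨i, h, rfl⟩
    exact hk i h
  · rintro _ ⟨i, h, rfl⟩
    exact ⟨{some (i, k i)}, fan_open fun h => (by cases h), singleton_inter_of_mem ⟨i, h, rfl⟩⟩

lemma kR {X : Type} [TopologicalSpace X] [FirstCountableTopology X] {D : Set X} (hD : Dense D)
    (h : ∀ x : ℕ → X, (∀ n, x n ∈ D) → ∃ a, MapClusterPt a atTop x) {f : X × Fan → ℝ}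
    (hf : ∀ K, IsCompact K → ContinuousOn f K) : Continuous f := by
  have s : SeqContinuous f := fun x p hx => ((hf _ hx.isCompact_insert_range) p (.inl rfl)).tendsto.comp
    (tendsto_nhdsWithin_iff.2 ⟨hx, Eventually.of_forall fun n => .inr ⟨n, rfl⟩⟩)
  have c : ∀ y, Continuous fun x => f (x, y) := fun y => SeqContinuous.continuous fun _ _ hx =>
    s (hx.prodMk_nhds tendsto_const_nhds)
  have k : ∀ y, ∀ r > 0, ∀ᶠ z in 𝓝 y, ∀ x, dist (f (x, z)) (f (x, y)) ≤ r := fun y r hr => by
    rcases y with _ | q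
    · refine IsOpen.mem_nhds (fun _ j => ?_) fun _ => by simpa using hr.le
      by_contra k
      obtain ⟨φ, h1, h2⟩ := extraction_of_frequently_atTop (not_eventually.1 k)
      choose x x1 x2 using fun n => hD.inter_open_nonempty _
        (isOpen_lt continuous_const ((c (some (j, φ n))).dist (c none)))
        ((not_forall.1 (h2 n)).imp fun _ => not_le.1)
      obtain ⟨a, ha⟩ := h x x2
      obtain ⟨ψ, h3, h4⟩ := ha.tendsto_subseq
      have := (s (h4.prodMk_nhds ((spine j).comp (h1.comp h3).tendsto_atTop))).dist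
        (s (h4.prodMk_nhds (tendsto_const_nhds (X := Fan) (x := none))))
      rw [dist_self] at this
      exact hr.not_ge (ge_of_tendsto' this fun n => (x1 _).le)
    · filter_upwards [(fan_open (U := {some q}) fun h => by cases h).mem_nhds rfl] with z hz x
      rw [show z = some q from hz, dist_self]
      exact hr.le
  refine continuous_iff_continuousAt.2 fun p => Metric.tendsto_nhds.2 fun r hr => ?_
  filter_upwards [prod_mem_nhds (Metric.tendsto_nhds.1 ((c p.2).tendsto p.1) _ (half_pos hr))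
    (k p.2 _ (half_pos hr))] with z hz
  linarith [dist_triangle (f z) (f (z.1, p.2)) (f p), hz.2 z.1, show dist _ (f p) < _ from hz.1]

variable {M : Set (Set ℕ)}

def pl (n : ℕ) : Psi M := .inl n
def pr (A : M) : Psi M := .inr A

instance : FirstCountableTopology (Psi M) := ⟨fun x => by
  rcases x with n | A
  · rw [(isOpen_singleton_iff_nhds_eq_pure _).1 (open_of fun _ h => by cases h)]
    infer_instance
  · have : 𝓝 (pr A) = pure (pr A) ⊔ map pl (atTop ⊓ 𝓟 A.1) := by
      ext U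
      rw [mem_sup, mem_pure, mem_map, mem_inf_principal, ← Nat.cofinite_eq_atTop, mem_cofinite,
        mem_nhds_iff]
      refine ⟨fun ⟨t, a, b, c⟩ => ⟨a c, (b A c).subset fun n h => ?_⟩, fun ⟨a, b⟩ =>
        ⟨{y ∈ U | y = .inr A ∨ ∃ n, y = .inl n}, fun _ h => h.1, fun B hB => ?_, a, .inl rfl⟩⟩
      · exact (Classical.not_imp.1 h).imp_right fun k l => k (a l)
      · obtain ⟨-, h | ⟨_, h⟩⟩ := hB <;> cases h
        exact b.subset fun n h k => h.2 ⟨k h.1, .inr ⟨n, rfl⟩⟩
    show (𝓝 (pr A)).IsCountablyGenerated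
    rw [this]
    infer_instance⟩

lemma psi_cl (h3 : ∀ B : Set ℕ, B.Infinite → ∃ A ∈ M, (A ∩ B).Infinite) (d : ℕ → ℕ) :
    ∃ a : Psi M, MapClusterPt a atTop fun n => pl (d n) := by
  rcases (range d).finite_or_infinite with e | e
  · obtain ⟨a, -, h⟩ := (e.image (pl (M := M))).isCompact.exists_mapClusterPt (f := atTop)
      (u := fun n => pl (d n)) (tendsto_principal.2 (Eventually.of_forall fun n => ⟨_, ⟨n, rfl⟩, rfl⟩))
    exact ⟨a, h⟩
  · obtain ⟨A, h⟩ := acc h3 e
    refine ⟨pr A, mapClusterPt_iff_frequently.2 fun s hs => Nat.frequently_atTop_iff_infinite.2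
      fun k => h _ isOpen_interior (mem_interior_iff_mem_nhds (X := Psi M) |>.2 hs) ((k.image d).subset ?_)⟩
    rintro _ ⟨⟨n, rfl⟩, h⟩
    exact ⟨n, interior_subset (s := s) h, rfl⟩

/-- points of the countable power with at most one non-trivial coordinate -/
def Z (M : Set (Set ℕ)) : Set (ℕ → Psi M) := {x | ∀ i j, x i ≠ pl 0 → x j ≠ pl 0 → i = j}

def u (n : ℕ) (a : Psi M) : Z M := ⟨Function.update (fun _ => pl 0) n a, fun i j h k => by
  have : ∀ i, Function.update (fun _ => (pl 0 : Psi M)) n a i ≠ pl 0 → i = n := fun i h =>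
    not_not.1 fun e => h (Function.update_of_ne e _ _)
  rw [this i h, this j k]⟩

lemma u_cont (n : ℕ) : Continuous (u (M := M) n) :=
  continuous_induced_rng.2 (continuous_const.update n continuous_id)

lemma u_surj (x : Z M) : ∃ n, x = u n (x.1 n) := by
  have : ∃ n, ∀ i ≠ n, x.1 i = pl 0 := by
    by_contra! h
    obtain ⟨i, -, a⟩ := h 0
    obtain ⟨j, b, c⟩ := h i
    exact b (x.2 _ _ c a)
  exact this.imp fun n h => Subtype.ext (Function.eq_update_iff.2 ⟨rfl, h⟩)

lemma Z_cl (h3 : ∀ B : Set ℕ, B.Infinite → ∃ A ∈ M, (A ∩ B).Infinite) (x : ℕ → Z M)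
    (h : ∀ n, x n ∈ range fun p : ℕ × ℕ => u p.1 (pl p.2)) : ∃ a, MapClusterPt a atTop x := by
  choose p hp using h
  by_cases e : ∃ i, ∃ᶠ n in atTop, (p n).1 = i
  · obtain ⟨i, e⟩ := e
    obtain ⟨φ, h1, h2⟩ := extraction_of_frequently_atTop e
    obtain ⟨a, ha⟩ := psi_cl h3 fun n => (p (φ n)).2
    refine ⟨u i a, .of_comp h1.tendsto_atTop ?_⟩
    convert ha.continuousAt_comp (u_cont i).continuousAt using 1
    exact funext fun n => by simp [← hp, h2]
  · refine ⟨u 0 (pl 0), Tendsto.mapClusterPt (tendsto_subtype_rng.2 (tendsto_pi_nhds.2 fun i =>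
      tendsto_const_nhds.congr' ((not_frequently.1 (not_exists.1 e i)).mono fun n h => ?_)))⟩
    simp [← hp, u, Ne.symm h]

end Pool.Agent.H.MP_a29c66
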